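import Pool.Agent.Y223.G.Stm4
import Pool.Agent.Y223.G.WBase

/-!
# The tame case: regularity of the graded algebra
-/

set_option autoImplicit false

namespace Pool.Agent.Y161.G

open IsLocalRing Pool.Agent.W418.LU2 Pool.Agent.Y223.G

/-- For `p = 1` the graded algebra does not depend on the automorphism. -/
lemma RR_one_eq {k O K : Type} [CommRing k] [CommRing O] [Field K] [Algebra O K]
    [Algebra k K] (τ τ' : K ≃ₐ[k] K) (𝔓 : Ideal O) (l : ℕ) (C : Subalgebra O K) :
    RR k τ 1 𝔓 l C = RR k τ' 1 𝔓 l C := by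
  unfold RR
  congr 2
  ext f
  constructor
  · rintro ⟨a, c, hc, ha, rfl⟩
    obtain rfl : a = 0 := by omega
    exact ⟨0, c, hc, ha, rfl⟩
  · rintro ⟨a, c, hc, ha, rfl⟩
    obtain rfl : a = 0 := by omega
    exact ⟨0, c, hc, ha, rfl⟩

/-- The homogeneous elements of degree `d` of the graded algebra are in the power `d` of the
ideal generated by `𝔓`. -/
lemma RR_one_coeff {k O K : Type} [CommRing k] [CommRing O] [Field K] [Algebra k O] [Algebra O K]
    [Algebra k K] [IsScalarTower k O K] (𝔓 : Ideal O) (l : ℕ) (C : Subalgebra O K) {f : LP K}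
    (hf : f ∈ RR k (AlgEquiv.refl : K ≃ₐ[k] K) 1 𝔓 l C) (d : ℤ) :
    ∃ y : C, (y : K) = f.coeff d ∧ y ∈ (𝔓.map (algebraMap O C)) ^ d.toNat := by
  classical
  set J : Ideal C := 𝔓.map (algebraMap O C) with hJ
  have hadd : ∀ (n : ℕ) (x y : K), (∃ u : C, (u : K) = x ∧ u ∈ J ^ n) →
      (∃ u : C, (u : K) = y ∧ u ∈ J ^ n) → ∃ u : C, (u : K) = x + y ∧ u ∈ J ^ n := by
    rintro n x y ⟨u, rfl, hu⟩ ⟨v, rfl, hv⟩
    exact ⟨u + v, rfl, (J ^ n).add_mem hu hv⟩
  have hsum : ∀ (n : ℕ) (s : Finset ℤ) (g : ℤ → K), (∀ i ∈ s, ∃ u : C, (u : K) = g i ∧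
      u ∈ J ^ n) → ∃ u : C, (u : K) = ∑ i ∈ s, g i ∧ u ∈ J ^ n := by
    intro n s g
    induction s using Finset.induction_on with
    | empty => intro _; exact ⟨0, by simp, (J ^ n).zero_mem⟩
    | insert a s ha ih =>
      intro h
      rw [Finset.sum_insert ha]
      exact hadd n _ _ (h a (Finset.mem_insert_self a s))
        (ih fun i hi => h i (Finset.mem_insert_of_mem hi))
  let S : Subalgebra k (LP K) :=
    { carrier := {f | ∀ d : ℤ, ∃ y : C, (y : K) = f.coeff d ∧ y ∈ J ^ d.toNat}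
      mul_mem' := by
        intro f g hf hg d
        rw [eq_sum_hm f, eq_sum_hm g, Finset.sum_mul_sum, AddMonoidAlgebra.coeff_sum,
          Finsupp.finsetSum_apply]
        refine hsum _ _ _ fun a _ => ?_
        rw [AddMonoidAlgebra.coeff_sum, Finsupp.finsetSum_apply]
        refine hsum _ _ _ fun b _ => ?_
        rw [hm_mul, coeff_hm]
        split_ifs with hab
        · obtain ⟨u, hu, hu'⟩ := hf a
          obtain ⟨v, hv, hv'⟩ := hg b
          refine ⟨u * v, by rw [← hu, ← hv]; rfl, ?_⟩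
          have h1 : u * v ∈ J ^ (a.toNat + b.toNat) := by
            rw [pow_add]; exact Ideal.mul_mem_mul hu' hv'
          exact Ideal.pow_le_pow_right (by omega) h1
        · exact ⟨0, rfl, (J ^ _).zero_mem⟩
      add_mem' := by
        intro f g hf hg d
        rw [AddMonoidAlgebra.coeff_add, Finsupp.add_apply]
        exact hadd _ _ _ (hf d) (hg d)
      algebraMap_mem' := by
        intro r d
        rw [algebraMap_LP, coeff_hm]
        split_ifs with h0
        · refine ⟨algebraMap O C (algebraMap k O r), ?_, ?_⟩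
          · rw [IsScalarTower.algebraMap_apply k O K]
            rfl
          · rw [← h0]
            simp
        · exact ⟨0, rfl, (J ^ _).zero_mem⟩ }
  have hle : RR k (AlgEquiv.refl : K ≃ₐ[k] K) 1 𝔓 l C ≤ S := by
    unfold RR
    rw [Algebra.adjoin_le_iff]
    have key : ∀ (e : ℤ) (x : K), (∃ y : C, (y : K) = x ∧ y ∈ J ^ e.toNat) → hm e x ∈ S := by
      intro e x hx d
      rw [coeff_hm]
      split_ifs with h
      · rw [← h]; exact hx
      · exact ⟨0, rfl, (J ^ _).zero_mem⟩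
    rintro f ((hf | ⟨e, he, rfl⟩) | ⟨a, c, hc, ha, rfl⟩)
    · rw [hf]
      exact key _ _ ⟨1, rfl, by simp⟩
    · refine key _ _ ⟨algebraMap O C e, rfl, ?_⟩
      have : (1 : ℤ).toNat = 1 := rfl
      rw [this, pow_one]
      exact Ideal.mem_map_of_mem _ he
    · obtain rfl : a = 0 := by omega
      refine key _ _ ⟨⟨c, hc⟩, rfl, ?_⟩
      rw [wt_zero]
      simp
  exact hle hf d

/-- An element of `𝔓` not in `𝔓 ^ 2` generates `𝔓` locally. -/
lemma loc_gen {O : Type} [CommRing O] [IsDedekindDomain O] {𝔓 : Ideal O}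
    {π : O} (h1 : π ∈ 𝔓) (h2 : π ∉ 𝔓 ^ 2) {e : O} (he : e ∈ 𝔓) :
    ∃ s, s ∉ 𝔓 ∧ π ∣ s * e := by
  have hdvd : 𝔓 ∣ Ideal.span {π} := by
    rw [Ideal.dvd_iff_le, Ideal.span_singleton_le_iff_mem]
    exact h1
  obtain ⟨𝔞, h𝔞⟩ := hdvd
  have h3 : ¬ 𝔞 ≤ 𝔓 := by
    intro hle
    apply h2
    have h4 : Ideal.span {π} ≤ 𝔓 ^ 2 := by
      rw [h𝔞, pow_two]
      exact Ideal.mul_mono_right hle
    exact h4 (Ideal.mem_span_singleton_self π)
  obtain ⟨s, hs, hs'⟩ := Set.not_subset.1 h3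
  refine ⟨s, hs', ?_⟩
  rw [← Ideal.mem_span_singleton, h𝔞, mul_comm]
  exact Ideal.mul_mem_mul hs he

theorem t_TAMER : S_WCH → S_RFT0 → S_TAMER := by
  intro hWCH hRFT k O K _ _ _ _ _ _ _ _ _ _ τ 𝔓 l hft hinj hmx hne C hftC hreg hπ2
  rw [RR_one_eq τ AlgEquiv.refl]
  have hC : ∀ c ∈ C, (AlgEquiv.refl : K ≃ₐ[k] K) c ∈ C := fun c hc => hc
  have hfin := hRFT k O K 1 one_pos (AlgEquiv.refl : K ≃ₐ[k] K) 𝔓 l hft (fun o => ⟨o, rfl⟩) C hC
    hftC
  have := hfin
  have hnoeth : IsNoetherianRing (RR k (AlgEquiv.refl : K ≃ₐ[k] K) 1 𝔓 l C) :=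
    Algebra.FiniteType.isNoetherianRing k _
  have : 𝔓.IsMaximal := hmx
  obtain ⟨π, hπ, hπ'⟩ : ∃ π ∈ 𝔓, π ∉ 𝔓 ^ 2 := by
    have h1 : 𝔓 ^ 2 < 𝔓 := Ideal.pow_lt_self 𝔓 hne hmx.ne_top 2 le_rfl
    obtain ⟨x, hx, hx'⟩ := Set.exists_of_ssubset (SetLike.coe_ssubset_coe.2 h1)
    exact ⟨x, hx, hx'⟩
  refine hWCH k K (RR k (AlgEquiv.refl : K ≃ₐ[k] K) 1 𝔓 l C) hnoeth RR_gr RR_s
    (fun d x hx => RR_cf one_pos hC hx) C (C.val : C →+* K) Subtype.val_injective
    (fun y => ⟨fun h => ⟨⟨y, RR_mem_C hC h⟩, rfl⟩, ?_⟩) hreg ?_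
  · rintro ⟨c, rfl⟩
    exact RR_c one_pos c.2
  intro Q _ hQ
  have hle : 𝔓 ≤ Q.comap (algebraMap O C) := by
    intro e he
    exact hQ 1 (algebraMap O C e) one_pos (RR_e he)
  have hQP : Q.comap (algebraMap O C) = 𝔓 :=
    (hmx.eq_of_le (Ideal.IsPrime.comap (algebraMap O C)).ne_top hle).symm
  have hunit : ∀ s : O, s ∉ 𝔓 →
      IsUnit (algebraMap C (Localization.AtPrime Q) (algebraMap O C s)) := by
    intro s hs
    apply IsLocalization.map_units (Localization.AtPrime Q) (⟨algebraMap O C s, ?_⟩ : Q.primeCompl)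
    intro h
    exact hs (by rw [← hQP]; exact h)
  have hπm : algebraMap C (Localization.AtPrime Q) (algebraMap O C π) ∈
      maximalIdeal (Localization.AtPrime Q) := by
    rw [← Localization.AtPrime.map_eq_maximalIdeal]
    exact Ideal.mem_map_of_mem _ (hle hπ)
  refine ⟨Unit, inferInstance, fun _ => algebraMap O C π, fun _ => 1, ?_, ?_, ?_⟩
  · intro _
    refine ⟨one_pos, ?_⟩
    show hm ((1 : ℕ) : ℤ) (algebraMap O K π) ∈ _
    rw [Nat.cast_one]
    exact RR_e hπ
  · refine ⟨fun _ => hπm, fun c hc i => ?_⟩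
    by_contra hci
    have hu : IsUnit (c i) := by
      by_contra h
      exact hci ((mem_maximalIdeal _).2 h)
    have h2 : c i * algebraMap C (Localization.AtPrime Q) (algebraMap O C π) ∈
        maximalIdeal (Localization.AtPrime Q) ^ 2 := by
      simpa using hc
    obtain ⟨u, hu⟩ := hu
    have h3 := Ideal.mul_mem_left _ ((u⁻¹ : (Localization.AtPrime Q)ˣ) :
      Localization.AtPrime Q) h2
    rw [← hu, ← mul_assoc, Units.inv_mul, one_mul] at h3
    exact hπ2 Q hQP π hπ hπ' h3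
  · intro n y hy
    obtain ⟨y', hy1, hy2⟩ := RR_one_coeff 𝔓 l C hy n
    have hyy : y' = y := by
      apply Subtype.ext
      rw [hy1]
      exact coeff_hm_same _ _
    subst hyy
    rw [Int.toNat_natCast] at hy2
    have h1 : (𝔓.map (algebraMap O C)).map (algebraMap C (Localization.AtPrime Q)) ≤
        Ideal.span {algebraMap C (Localization.AtPrime Q) (algebraMap O C π)} := by
      rw [Ideal.map_le_iff_le_comap, Ideal.map_le_iff_le_comap]
      intro e he
      rw [Ideal.mem_comap, Ideal.mem_comap, Ideal.mem_span_singleton]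
      obtain ⟨s, hs, c, hc⟩ := loc_gen hπ hπ' he
      have h2 := hunit s hs
      have h3 : algebraMap C (Localization.AtPrime Q) (algebraMap O C π) ∣
          algebraMap C (Localization.AtPrime Q) (algebraMap O C s) *
            algebraMap C (Localization.AtPrime Q) (algebraMap O C e) := by
        rw [← map_mul, ← map_mul, hc, map_mul, map_mul]
        exact Dvd.intro _ rfl
      exact (h2.dvd_mul_left).1 h3
    have h4 : algebraMap C (Localization.AtPrime Q) y' ∈
        Ideal.span {algebraMap C (Localization.AtPrime Q) (algebraMap O C π)} ^ n := by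
      have h5 := Ideal.mem_map_of_mem (algebraMap C (Localization.AtPrime Q)) hy2
      rw [Ideal.map_pow] at h5
      exact Ideal.pow_right_mono h1 n h5
    rw [Ideal.span_singleton_pow] at h4
    refine Ideal.span_mono ?_ h4
    rintro z hz
    rw [Set.mem_singleton_iff] at hz
    exact ⟨fun _ => n, by simp, by rw [hz]; simp⟩

end Pool.Agent.Y161.G
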